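import Pool.Agent.Helper99.MKV.GoalsR

/-!
# MKV packet POI: linear algebra of a finite stochastic matrix
-/

open Finset

namespace Pool.Agent.Helper34.MKV

open Pool.Agent.Helper99.MKV Pool.Agent.Helper99.EXC Pool.Agent.Helper99.ERW

/-- the operator of a kernel -/
noncomputable def opP {E : Type} [Fintype E] (p : E → E → ℝ) : (E → ℝ) →ₗ[ℝ] (E → ℝ) where
  toFun u := fun e => ∑ i, p e i * u i
  map_add' u v := by
    ext e
    simp [mul_add, Finset.sum_add_distrib]
  map_smul' c u := by
    ext e
    simp only [Pi.smul_apply, smul_eq_mul, RingHom.id_apply, Finset.mul_sum]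
    apply Finset.sum_congr rfl
    intro i _
    ring

/-- the operator `p - 1` -/
noncomputable def opD {E : Type} [Fintype E] (p : E → E → ℝ) : (E → ℝ) →ₗ[ℝ] (E → ℝ) :=
  opP p - LinearMap.id

theorem opP_apply {E : Type} [Fintype E] (p : E → E → ℝ) (u : E → ℝ) (e : E) :
    opP p u e = ∑ i, p e i * u i := rfl

theorem opD_apply {E : Type} [Fintype E] (p : E → E → ℝ) (u : E → ℝ) (e : E) :
    opD p u e = ∑ i, p e i * u i - u e := rfl

/-- functionals that vanish on the range are differences of stationary measures -/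
theorem range_of_stationary {E : Type} [Fintype E] (p : E → E → ℝ) (hp : Stoch p) (g : E → ℝ)
    (h : ∀ π : E → ℝ, (∀ e, 0 ≤ π e) → (∀ i, ∑ e, π e * p e i = π i) → ∑ e, π e * g e = 0) :
    ∃ R : E → ℝ, ∀ e, g e = ∑ i, p e i * R i - R e := by
  classical
  suffices hg : g ∈ LinearMap.range (opD p) by
    obtain ⟨R, hR⟩ := hg
    refine ⟨R, fun e => ?_⟩
    rw [← hR, opD_apply]
  by_contra hg
  obtain ⟨φ, hφ1, hφ2⟩ := Submodule.exists_dual_map_eq_bot_of_notMem hg inferInstance
  have hφ : ∀ u, φ (opD p u) = 0 := by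
    intro u
    have : φ (opD p u) ∈ Submodule.map φ (LinearMap.range (opD p)) :=
      Submodule.mem_map_of_mem (LinearMap.mem_range_self _ _)
    rw [hφ2] at this
    simpa using this
  set π : E → ℝ := fun e => φ (Pi.single e 1) with hπ
  have hφπ : ∀ u : E → ℝ, φ u = ∑ e, π e * u e := by
    intro u
    have hu : u = ∑ e, u e • (Pi.single e (1 : ℝ) : E → ℝ) := by
      ext j
      simp [Finset.sum_apply, Pi.single_apply]
    conv_lhs => rw [hu]
    rw [map_sum]
    apply Finset.sum_congr rfl
    intro e _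
    rw [map_smul, smul_eq_mul, mul_comm]
  have hst : ∀ i, ∑ e, π e * p e i = π i := by
    intro i
    have h1 := hφ (Pi.single i 1)
    rw [hφπ] at h1
    have h2 : ∀ e, opD p (Pi.single i 1) e = p e i - (Pi.single i (1 : ℝ) : E → ℝ) e := by
      intro e
      rw [opD_apply]
      congr 1
      simp [Pi.single_apply]
    simp only [h2, mul_sub, Finset.sum_sub_distrib] at h1
    have h3 : ∑ e, π e * (Pi.single i (1 : ℝ) : E → ℝ) e = π i := by
      simp [Pi.single_apply]
    rw [h3] at h1
    linarith
  have hle : ∀ i ∈ (Finset.univ : Finset E), |π i| ≤ ∑ e, |π e| * p e i := by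
    intro i _
    conv_lhs => rw [← hst i]
    refine (Finset.abs_sum_le_sum_abs _ _).trans (le_of_eq ?_)
    apply Finset.sum_congr rfl
    intro e _
    rw [abs_mul, abs_of_nonneg (hp.1 e i)]
  have hsum : ∑ i, |π i| = ∑ i, ∑ e, |π e| * p e i := by
    rw [Finset.sum_comm]
    apply Finset.sum_congr rfl
    intro e _
    rw [← Finset.mul_sum, hp.2 e, mul_one]
  have heq : ∀ i, |π i| = ∑ e, |π e| * p e i := by
    intro i
    exact (Finset.sum_eq_sum_iff_of_le hle).1 hsum i (Finset.mem_univ i)
  have hplus := h (fun e => |π e| + π e) (fun e => by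
      have := neg_abs_le (π e); linarith) (fun i => by
      simp only [add_mul, Finset.sum_add_distrib]
      rw [← heq i, hst i])
  have habs := h (fun e => |π e|) (fun e => abs_nonneg _) (fun i => (heq i).symm)
  apply hφ1
  rw [hφπ]
  simp only [add_mul, Finset.sum_add_distrib] at hplus
  linarith

theorem ker_range_disjoint {E : Type} [Fintype E] (p : E → E → ℝ) (hp : Stoch p) (u h : E → ℝ)
    (h1 : opD p u = h) (h2 : opD p h = 0) : h = 0 := by
  have hu : opP p u = u + h := by
    rw [← h1, opD]
    ext e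
    simp
  have hh : opP p h = h := by
    have : opD p h = opP p h - h := rfl
    rw [this] at h2
    exact sub_eq_zero.1 h2
  have hit : ∀ n : ℕ, ((opP p) ^ n) u = u + (n : ℝ) • h := by
    intro n
    induction n with
    | zero => simp
    | succ n ih =>
      rw [pow_succ', Module.End.mul_apply, ih, map_add, map_smul, hu, hh]
      ext e
      simp
      ring
  have hb : ∀ n : ℕ, ∀ e, |((opP p) ^ n) u e| ≤ ∑ i, |u i| := by
    intro n
    induction n with
    | zero =>
      intro e
      simp only [pow_zero, Module.End.one_apply]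
      exact Finset.single_le_sum (f := fun i => |u i|) (fun i _ => abs_nonneg _)
        (Finset.mem_univ e)
    | succ n ih =>
      intro e
      rw [pow_succ', Module.End.mul_apply, opP_apply]
      refine (Finset.abs_sum_le_sum_abs _ _).trans ?_
      have : ∀ i ∈ (Finset.univ : Finset E), |p e i * ((opP p) ^ n) u i| ≤
          p e i * ∑ i, |u i| := by
        intro i _
        rw [abs_mul, abs_of_nonneg (hp.1 e i)]
        exact mul_le_mul_of_nonneg_left (ih i) (hp.1 e i)
      refine (Finset.sum_le_sum this).trans ?_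
      rw [← Finset.sum_mul, hp.2 e, one_mul]
  ext e
  by_contra hne
  have hpos : 0 < |h e| := abs_pos.2 hne
  obtain ⟨n, hn⟩ := exists_nat_gt ((2 * ∑ i, |u i|) / |h e|)
  rw [div_lt_iff₀ hpos] at hn
  have h3 := hb n e
  rw [hit n] at h3
  have h4 : (u + (n : ℝ) • h) e = u e + n * h e := by simp
  rw [h4] at h3
  have h5 : |(n : ℝ) * h e| ≤ |u e + n * h e| + |u e| := by
    have := abs_sub (u e + n * h e) (u e)
    rw [add_sub_cancel_left] at this
    exact this
  have h6 : |u e| ≤ ∑ i, |u i| :=
    Finset.single_le_sum (f := fun i => |u i|) (fun i _ => abs_nonneg _) (Finset.mem_univ e)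
  rw [abs_mul, Nat.abs_cast] at h5
  linarith

theorem harmonic_split {E : Type} [Fintype E] (p : E → E → ℝ) (hp : Stoch p) (g : E → ℝ) :
    ∃ T R : E → ℝ, (∀ e, ∑ i, p e i * T i = T e) ∧ ∀ e, g e - T e = ∑ i, p e i * R i - R e := by
  have hd : Disjoint (LinearMap.ker (opD p)) (LinearMap.range (opD p)) := by
    rw [Submodule.disjoint_def]
    intro x hx1 hx2
    obtain ⟨u, hu⟩ := hx2
    exact ker_range_disjoint p hp u x hu (LinearMap.mem_ker.1 hx1)
  have hc : IsCompl (LinearMap.ker (opD p)) (LinearMap.range (opD p)) := by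
    rw [Submodule.isCompl_iff_disjoint _ _ ?_]
    · exact hd
    · have := LinearMap.finrank_range_add_finrank_ker (opD p)
      omega
  have hg : g ∈ LinearMap.ker (opD p) ⊔ LinearMap.range (opD p) := by
    rw [hc.sup_eq_top]
    exact Submodule.mem_top
  obtain ⟨T, hT, y, hy, hTy⟩ := Submodule.mem_sup.1 hg
  obtain ⟨R, hR⟩ := hy
  refine ⟨T, R, fun e => ?_, fun e => ?_⟩
  · have : opD p T e = 0 := by rw [LinearMap.mem_ker.1 hT]; rfl
    rw [opD_apply] at this
    linarith
  · rw [← opD_apply, hR, ← hTy]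
    simp

theorem POI : POI_stmt := by
  intro E _ p f a h0 hp hm
  obtain ⟨S, hS⟩ := range_of_stationary p hp (fun e => f e - a) (by
    intro π h1 h2
    by_cases hz : ∑ e, π e = 0
    · have h0 : ∀ e, π e = 0 := fun e =>
        (Finset.sum_eq_zero_iff_of_nonneg (fun e _ => h1 e)).1 hz e (Finset.mem_univ e)
      simp [h0]
    · have hpos : 0 < ∑ e, π e := lt_of_le_of_ne (Finset.sum_nonneg fun e _ => h1 e) (Ne.symm hz)
      have h3 := hm (fun e => π e / ∑ e, π e) (fun e => div_nonneg (h1 e) hpos.le)
        (by rw [← Finset.sum_div, div_self hz])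
        (fun i => by
          have : ∀ e, π e / (∑ e, π e) * p e i = (π e * p e i) / (∑ e, π e) := fun e => by ring
          simp only [this]
          rw [← Finset.sum_div, h2 i])
      have h4 : ∀ e, π e / (∑ e, π e) * f e = (π e * f e) / (∑ e, π e) := fun e => by ring
      simp only [h4] at h3
      rw [← Finset.sum_div, div_eq_iff hz] at h3
      simp only [mul_sub, Finset.sum_sub_distrib]
      rw [h3, ← Finset.sum_mul]
      ring)
  obtain ⟨T, R0, hT, hR0⟩ := harmonic_split p hp
    (fun e => ∑ i, p e i * S i + h0 * (f e - a) ^ 2 - h0 / 2 * ∑ i, p e i * (S i - S e) ^ 2)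
  obtain ⟨R1, hR1⟩ := range_of_stationary p hp
    (fun e => ∑ i, p e i * ((S i - S e) * (T i - T e))) (by
    intro π h1 h2
    have hsq : ∑ e, ∑ i, π e * p e i * (T i - T e) ^ 2 = 0 := by
      have ha : ∑ e, ∑ i, π e * p e i * (T i) ^ 2 = ∑ i, π i * (T i) ^ 2 := by
        rw [Finset.sum_comm]
        apply Finset.sum_congr rfl
        intro i _
        rw [← Finset.sum_mul, h2 i]
      have hb : ∑ e, ∑ i, π e * p e i * (T i * T e) = ∑ e, π e * (T e) ^ 2 := by
        apply Finset.sum_congr rfl
        intro e _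
        have : ∀ i, π e * p e i * (T i * T e) = (π e * T e) * (p e i * T i) := fun i => by ring
        simp only [this]
        rw [← Finset.mul_sum, hT e]
        ring
      have hc : ∑ e, ∑ i, π e * p e i * (T e) ^ 2 = ∑ e, π e * (T e) ^ 2 := by
        apply Finset.sum_congr rfl
        intro e _
        rw [← Finset.sum_mul, ← Finset.mul_sum, hp.2 e, mul_one]
      have hd : ∀ e i, π e * p e i * (T i - T e) ^ 2 =
          π e * p e i * (T i) ^ 2 - 2 * (π e * p e i * (T i * T e)) + π e * p e i * (T e) ^ 2 := by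
        intro e i
        ring
      simp only [hd, Finset.sum_add_distrib, Finset.sum_sub_distrib, ← Finset.mul_sum]
      rw [ha, hb, hc]
      ring
    have hnn : ∀ e i, 0 ≤ π e * p e i * (T i - T e) ^ 2 := fun e i =>
      mul_nonneg (mul_nonneg (h1 e) (hp.1 e i)) (sq_nonneg _)
    have hz : ∀ e i, π e * p e i * (T i - T e) ^ 2 = 0 := by
      intro e i
      have h3 := (Finset.sum_eq_zero_iff_of_nonneg
        (fun e _ => Finset.sum_nonneg fun i _ => hnn e i)).1 hsq e (Finset.mem_univ e)
      exact (Finset.sum_eq_zero_iff_of_nonneg (fun i _ => hnn e i)).1 h3 i (Finset.mem_univ i)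
    apply Finset.sum_eq_zero
    intro e _
    rw [Finset.mul_sum]
    apply Finset.sum_eq_zero
    intro i _
    rcases mul_eq_zero.1 (hz e i) with h4 | h4
    · rw [← mul_assoc, h4, zero_mul]
    · have : T i - T e = 0 := by simpa using h4
      rw [this]
      ring)
  refine ⟨S, T, fun e => R0 e + h0 * R1 e, fun e => (hS e).symm, hT, fun e => ?_⟩
  have h5 := hR0 e
  have h6 := hR1 e
  have h7 : ∑ i, p e i * (R0 i + h0 * R1 i) = ∑ i, p e i * R0 i + h0 * ∑ i, p e i * R1 i := by
    rw [Finset.mul_sum, ← Finset.sum_add_distrib]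
    apply Finset.sum_congr rfl
    intro i _
    ring
  simp only at h5 h6 ⊢
  rw [h7, h5, h6]
  ring

end Pool.Agent.Helper34.MKV
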